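import Mathlib
import Pool.Agent.TFL.Hook

set_option autoImplicit false

namespace Pool.Agent.Results.MP_3e7388_al.LocallyPolycyclicFactor

open scoped commutatorElement

/-- The torsion-free rank: the sum of the ranks of the factors of the derived series. -/
noncomputable def r0 (G : Type) [Group G] : Cardinal :=
  Cardinal.sum (fun n : ℕ => Module.rank ℤ (Additive (Abelianization ↥(derivedSeries G n))))

/-- Let `G` be soluble with `r0 G` finite, let `G = A B`, and let `T` be the largest torsion
normal subgroup of `G`. Suppose that for every normal subgroup `N < T` of `G` there are a normal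
subgroup `N'` of `G` with `N < N' ≤ T` and `N' / N` abelian, and one of the two factors, `X = A`
or `X = B`, such that, with `C` the centraliser of `N' / N` in `X`: whenever `Y` is a finitely
generated subgroup of `X` and `K` is a subgroup of `Y`, there is a finitely generated subgroup
`K0` of `K` with `K ⊆ K0 C`. In words: every finitely generated subgroup of `X / C` satisfies the
maximal condition on subgroups, that is, `X` acts on `N' / N` as a locally polycyclic group.
Then `r0 G + r0 (A ∩ B) = r0 A + r0 B`.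

Nothing is assumed about the other factor. In particular the formula holds for every
factorisation of `G` in which one of the two factors is locally polycyclic, for instance
polycyclic, abelian, locally nilpotent, or (locally nilpotent)-by-finite. -/
theorem result (G : Type) [Group G] (hs : Group.IsSolvable G) (hr : r0 G < Cardinal.aleph0)
    (A B : Subgroup G) (hAB : ∀ g : G, ∃ a ∈ A, ∃ b ∈ B, g = a * b)
    (T : Subgroup G) (hTn : T.Normal) (hTt : ∀ x ∈ T, ∃ k : ℕ, 0 < k ∧ x ^ k = 1)
    (hTmax : ∀ S : Subgroup G, S.Normal → (∀ x ∈ S, ∃ k : ℕ, 0 < k ∧ x ^ k = 1) → S ≤ T)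
    (hstar : ∀ N : Subgroup G, N.Normal → N < T → ∃ N' : Subgroup G, N'.Normal ∧ N < N' ∧
      N' ≤ T ∧ (∀ x ∈ N', ∀ y ∈ N', ⁅x, y⁆ ∈ N) ∧
      ∃ X : Subgroup G, (X = A ∨ X = B) ∧
        ∀ Y K : Subgroup G, Y ≤ X → Y.FG → K ≤ Y →
          ∃ K0 : Subgroup G, K0.FG ∧ K0 ≤ K ∧
            ∀ k ∈ K, ∃ k0 ∈ K0, ∀ x ∈ N', ⁅k0⁻¹ * k, x⁆ ∈ N) :
    r0 G + r0 ↥(A ⊓ B) = r0 ↥A + r0 ↥B := by
  refine Pool.TFL.mainL G hr A B hAB T hTn hTt hTmax (fun N hN hNT => ?_)
  obtain ⟨N', h1, h2, h3, h4, X, hX, h⟩ := hstar N hN hNT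
  refine ⟨N', h1, h2, h3, h4, ?_⟩
  rcases hX with rfl | rfl
  · exact Or.inl h
  · exact Or.inr h

end Pool.Agent.Results.MP_3e7388_al.LocallyPolycyclicFactor
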