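import Mathlib
import Pool.Agent.TF90.PowL
import Pool.Agent.TF90.CenM
import Pool.Agent.TF90.Layer

set_option autoImplicit false

namespace Pool.Agent.Results.MP_3e7388_al.NilpotentByMetabelian

open scoped commutatorElement

/-- The torsion-free rank: the sum of the ranks of the factors of the derived series. -/
noncomputable def r0 (G : Type) [Group G] : Cardinal :=
  Cardinal.sum (fun n : ℕ => Module.rank ℤ (Additive (Abelianization ↥(derivedSeries G n))))

/-- The commutator subgroup `[X'', X, ..., X]`, where `X''` is the second derived subgroup of `X`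
and is followed by `k` copies of `X`. It is trivial if and only if `X''` lies in the `k`-th term
of the upper central series of `X`. -/
def cs (X : Type) [Group X] : ℕ → Subgroup X
  | 0 => derivedSeries X 2
  | k + 1 => ⁅cs X k, (⊤ : Subgroup X)⁆

theorem cs_eq (X : Type) [Group X] (k : ℕ) : Pool.TF90.cs X k = cs X k := by
  induction k with
  | zero =>
    change ⁅commutator X, commutator X⁆ = derivedSeries X 2
    rw [derivedSeries_succ, derivedSeries_one]
  | succ k ih =>
    change ⁅Pool.TF90.cs X k, (⊤ : Subgroup X)⁆ = ⁅cs X k, (⊤ : Subgroup X)⁆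
    rw [ih]

/-- Let `G` be soluble with `r0 G` finite, let `G = A B`, and let `T` be the largest torsion
normal subgroup of `G`. Suppose that for every normal subgroup `N < T` of `G` there are a normal
subgroup `N'` of `G` with `N < N' ≤ T` and `N' / N` abelian, one of the two factors, `X = A` or
`X = B`, and `k ≥ 0` such that `[X'', X, ..., X]` (with `k` copies of `X`) centralises `N' / N`.
Then `r0 G + r0 (A ∩ B) = r0 A + r0 B`.

For `k = 0` the condition says that `X` acts on `N' / N` as a metabelian group. Nothing is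
assumed about the other factor, about the ranks or exponents of the torsion sections, or about
torsion elements in the acting group. The theorems below show what is covered: one factor is
metabelian, or `[X'', X, ..., X] = 1` for one factor `X` (`of_one_factor`); `[G'', G, ..., G]`
is nilpotent (`of_isNilpotent_cs`), for instance `G` is nilpotent-by-metabelian, has derived
length at most three (`of_derived_length_three`) or is metanilpotent (`of_metanilpotent`). -/
theorem result (G : Type) [Group G] (hs : Group.IsSolvable G) (hr : r0 G < Cardinal.aleph0)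
    (A B : Subgroup G) (hAB : ∀ g : G, ∃ a ∈ A, ∃ b ∈ B, g = a * b)
    (T : Subgroup G) (hTn : T.Normal) (hTt : ∀ x ∈ T, ∃ k : ℕ, 0 < k ∧ x ^ k = 1)
    (hTmax : ∀ S : Subgroup G, S.Normal → (∀ x ∈ S, ∃ k : ℕ, 0 < k ∧ x ^ k = 1) → S ≤ T)
    (hstar : ∀ N : Subgroup G, N.Normal → N < T → ∃ N' : Subgroup G, N'.Normal ∧ N < N' ∧
      N' ≤ T ∧ (∀ x ∈ N', ∀ y ∈ N', ⁅x, y⁆ ∈ N) ∧
      ∃ (X : Subgroup G) (k : ℕ), (X = A ∨ X = B) ∧
        ∀ z ∈ cs ↥X k, ∀ x ∈ N', ⁅(z : G), x⁆ ∈ N) :
    r0 G + r0 ↥(A ⊓ B) = r0 ↥A + r0 ↥B := by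
  refine Pool.TF90.mainC Pool.TF90.powL G hr A B hAB T hTn hTt hTmax (fun N hN hNT => ?_)
  obtain ⟨N', h1, h2, h3, h4, X, k, hX, h⟩ := hstar N hN hNT
  refine ⟨N', h1, h2, h3, h4, ?_⟩
  have h5 : Pool.TF90.OneC N N' X := ⟨k, fun a ha x hx => h a (cs_eq ↥X k ▸ ha) x hx⟩
  rcases hX with rfl | rfl
  · exact Or.inl h5
  · exact Or.inr h5

/-- The formula holds if `[X'', X, ..., X]` lies in a nilpotent normal subgroup `K` of `G` for
one of the two factors `X`. -/
theorem of_nilpotent (G : Type) [Group G] (hs : Group.IsSolvable G) (hr : r0 G < Cardinal.aleph0)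
    (A B : Subgroup G) (hAB : ∀ g : G, ∃ a ∈ A, ∃ b ∈ B, g = a * b)
    (K : Subgroup G) (hK : K.Normal) (hKn : Group.IsNilpotent ↥K)
    (X : Subgroup G) (hX : X = A ∨ X = B) (k : ℕ) (hXK : ∀ z ∈ cs ↥X k, (z : G) ∈ K) :
    r0 G + r0 ↥(A ⊓ B) = r0 ↥A + r0 ↥B := by
  refine result G hs hr A B hAB (Pool.TFR.torRad G) (Pool.TFR.torRad_normal G)
    (Pool.TFR.torRad_isTor G) (fun S hS hSt x hx => ⟨S, hS, hSt, hx⟩) (fun N hN hNT => ?_)
  obtain ⟨N', h1, h2, h3, h4, h5⟩ := Pool.TF90.exists_layer (Pool.TFR.torRad G) N K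
    (Pool.TFR.torRad_normal G) hN hK hKn hNT
  exact ⟨N', h1, h2, h3, h4, X, k, hX, fun z hz x hx => h5 z (hXK z hz) x hx⟩

/-- The formula holds if one of the two factors, `X = A` or `X = B`, is metabelian (`k = 0`), or,
more generally, is metabelian modulo a term of its upper central series; nothing is assumed about
the other factor. -/
theorem of_one_factor (G : Type) [Group G] (hs : Group.IsSolvable G)
    (hr : r0 G < Cardinal.aleph0) (A B : Subgroup G)
    (hAB : ∀ g : G, ∃ a ∈ A, ∃ b ∈ B, g = a * b)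
    (X : Subgroup G) (hX : X = A ∨ X = B) (k : ℕ) (hXk : cs ↥X k = ⊥) :
    r0 G + r0 ↥(A ⊓ B) = r0 ↥A + r0 ↥B := by
  refine of_nilpotent G hs hr A B hAB ⊥ inferInstance inferInstance X hX k ?_
  intro z hz
  rw [hXk, Subgroup.mem_bot] at hz
  rw [hz]
  exact Subgroup.one_mem _

/-- The formula holds if `[G'', G, ..., G]` is nilpotent, in particular if `G` is
nilpotent-by-metabelian (`k = 0`). -/
theorem of_isNilpotent_cs (G : Type) [Group G] (hs : Group.IsSolvable G)
    (hr : r0 G < Cardinal.aleph0) (k : ℕ) (hk : Group.IsNilpotent ↥(cs G k))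
    (A B : Subgroup G) (hAB : ∀ g : G, ∃ a ∈ A, ∃ b ∈ B, g = a * b) :
    r0 G + r0 ↥(A ⊓ B) = r0 ↥A + r0 ↥B := by
  have hn : (cs G k).Normal := by
    clear hk
    induction k with
    | zero => exact (inferInstance : (derivedSeries G 2).Normal)
    | succ k ih => exact @Subgroup.commutator_normal G _ (cs G k) ⊤ ih inferInstance
  refine of_nilpotent G hs hr A B hAB (cs G k) hn hk A (Or.inl rfl) k ?_
  intro z hz
  rw [← cs_eq]
  exact Pool.TF90.cs_map_le A.subtype k ⟨z, cs_eq ↥A k ▸ hz, rfl⟩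

/-- The formula holds if `G` has derived length at most three. -/
theorem of_derived_length_three (G : Type) [Group G] (hr : r0 G < Cardinal.aleph0)
    (hG : derivedSeries G 3 = ⊥) (A B : Subgroup G)
    (hAB : ∀ g : G, ∃ a ∈ A, ∃ b ∈ B, g = a * b) :
    r0 G + r0 ↥(A ⊓ B) = r0 ↥A + r0 ↥B := by
  refine of_isNilpotent_cs G ((Group.isSolvable_def G).2 ⟨3, hG⟩) hr 0 ?_ A B hAB
  rw [Subgroup.isNilpotent_iff_lowerCentralSeries]
  refine ⟨1, ?_⟩
  rw [Subgroup.lowerCentralSeries_succ, Subgroup.lowerCentralSeries_zero]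
  change ⁅derivedSeries G 2, derivedSeries G 2⁆ = ⊥
  rw [← derivedSeries_succ]
  exact hG

/-- The formula holds if `G` is metanilpotent: `K` and `G / K` are nilpotent. -/
theorem of_metanilpotent (G : Type) [Group G] (hr : r0 G < Cardinal.aleph0)
    (K : Subgroup G) (hK : K.Normal) (hKn : Group.IsNilpotent ↥K) (hGK : Group.IsNilpotent (G ⧸ K))
    (A B : Subgroup G) (hAB : ∀ g : G, ∃ a ∈ A, ∃ b ∈ B, g = a * b) :
    r0 G + r0 ↥(A ⊓ B) = r0 ↥A + r0 ↥B := by
  have hs : Group.IsSolvable G :=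
    (Group.isSolvable_iff_subgroup_quotient K).2 ⟨inferInstance, inferInstance⟩
  obtain ⟨n, hn⟩ := Subgroup.nilpotent_iff_lowerCentralSeries.1 hGK
  refine of_nilpotent G hs hr A B hAB K hK hKn A (Or.inl rfl) n ?_
  intro z hz
  have h1 : (z : G) ∈ cs G n := by
    rw [← cs_eq]
    exact Pool.TF90.cs_map_le A.subtype n ⟨z, cs_eq ↥A n ▸ hz, rfl⟩
  have h2 : ∀ k, cs G k ≤ (⊤ : Subgroup G).lowerCentralSeries k := by
    intro k
    induction k with
    | zero => exact le_top
    | succ k ih =>
      rw [Subgroup.lowerCentralSeries_succ]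
      exact Subgroup.commutator_mono ih le_rfl
  have h3 : QuotientGroup.mk' K (z : G) ∈
      ((⊤ : Subgroup G).lowerCentralSeries n).map (QuotientGroup.mk' K) := ⟨_, h2 n h1, rfl⟩
  rw [Subgroup.map_lowerCentralSeries, Subgroup.map_top_of_surjective _
    (QuotientGroup.mk'_surjective K), hn, Subgroup.mem_bot] at h3
  exact (QuotientGroup.eq_one_iff _).1 h3

end Pool.Agent.Results.MP_3e7388_al.NilpotentByMetabelian
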