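import Mathlib
import Pool.Agent.TFR.Main3

set_option autoImplicit false

namespace Pool.Agent.Results.MP_3e7388_al.TorsionRadical

open scoped commutatorElement

/-- The torsion-free rank: the sum of the ranks of the factors of the derived series. -/
noncomputable def r0 (G : Type) [Group G] : Cardinal :=
  Cardinal.sum (fun n : ℕ => Module.rank ℤ (Additive (Abelianization ↥(derivedSeries G n))))

/-- Let `G` be soluble with `r0 G` finite and let `T` be its largest torsion normal subgroup.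
Suppose that for every normal subgroup `N < T` of `G` there is a normal subgroup `N'` of `G`
with `N < N' ≤ T` and `N' / N` abelian such that for every `g` in `G`
* every element of `N' / N` is centralised by a positive power of `g`, or
* for some `m > 0` and some subgroup `L` of finite index, all commutators `⁅g ^ m, y⁆` with
  `y` in `L` centralise `N' / N`.
Then `r0 G + r0 (A ∩ B) = r0 A + r0 B` whenever `G = A B`. -/
theorem result (G : Type) [Group G] (hs : Group.IsSolvable G) (hr : r0 G < Cardinal.aleph0)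
    (T : Subgroup G) (hTn : T.Normal) (hTt : ∀ x ∈ T, ∃ k : ℕ, 0 < k ∧ x ^ k = 1)
    (hTmax : ∀ S : Subgroup G, S.Normal → (∀ x ∈ S, ∃ k : ℕ, 0 < k ∧ x ^ k = 1) → S ≤ T)
    (hstar : ∀ N : Subgroup G, N.Normal → N < T → ∃ N' : Subgroup G, N'.Normal ∧ N < N' ∧
      N' ≤ T ∧ (∀ x ∈ N', ∀ y ∈ N', ⁅x, y⁆ ∈ N) ∧
      ∀ g : G, (∀ x ∈ N', ∃ d : ℕ, 0 < d ∧ ⁅g ^ d, x⁆ ∈ N) ∨
        (∃ m : ℕ, 0 < m ∧ ∃ L : Subgroup G, L.FiniteIndex ∧
          ∀ y ∈ L, ∀ x ∈ N', ⁅⁅g ^ m, y⁆, x⁆ ∈ N)) :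
    ∀ A B : Subgroup G, (∀ g : G, ∃ a ∈ A, ∃ b ∈ B, g = a * b) →
      r0 G + r0 ↥(A ⊓ B) = r0 ↥A + r0 ↥B :=
  Pool.TFR.main3 G hr T hTn hTt hTmax hstar

end Pool.Agent.Results.MP_3e7388_al.TorsionRadical
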